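import Mathlib

/-!
# Generalized robustness of toric ideals is inherited under elimination of variables

If the universal Groebner basis of `I_A` equals its universal Markov basis, the same holds for
`I_{A'}` for every subset `A'` of `A`.

Idea. Write `u ~ v` if `x^u - x^v` lies in `m I_A`. A binomial of `I_A` is in the universal Markov
basis iff `u` and `v` are not related. Let `x^u - x^v` be in the universal Markov basis of
`I_{A'}`. Take a monomial order for which the monomials in the variables occurring in the class of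
`v` are smaller than all others, let `q` be the least monomial of the fiber and `p` the least
monomial in the class of `u`. Then `q ~ v`, and `x^p - x^q` is in the reduced Groebner basis,
hence in the universal Groebner basis of `I_A`, hence in its universal Markov basis, so `p` and
`q` (and therefore `u` and `v`) are not related in `A` either. So `x^u - x^v` is in the universal
Markov basis of `I_A`, which is its universal Groebner basis, and so in that of `I_{A'}`.
-/

namespace Pool.Agent.Results.MP_1df74f_al.GeneralizedRobust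

open MvPolynomial

/-! ## Definitions -/

section defs

/-- The toric ideal of a family `a : σ → ℤ^d`: the kernel of `x_i ↦ t^{a i}` into the Laurent
polynomial ring `k[ℤ^d]`. -/
noncomputable def toric (k : Type) [Field k] {σ : Type} {d : ℕ} (a : σ → (Fin d → ℤ)) :
    Ideal (MvPolynomial σ k) :=
  RingHom.ker (aeval (R := k) fun i => (AddMonoidAlgebra.single (a i) 1 :
    AddMonoidAlgebra k (Fin d → ℤ)))

/-- A binomial `x^u - x^v`. -/
def IsBinomial {k : Type} [Field k] {σ : Type} (f : MvPolynomial σ k) : Prop :=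
  ∃ u v : σ →₀ ℕ, f = monomial u 1 - monomial v 1

/-- `G` is a minimal generating set of `I` consisting of binomials. -/
def IsMinBinGen {k : Type} [Field k] {σ : Type} (I : Ideal (MvPolynomial σ k))
    (G : Set (MvPolynomial σ k)) : Prop :=
  (∀ g ∈ G, IsBinomial g) ∧ Ideal.span G = I ∧ ∀ G', G' ⊆ G → Ideal.span G' = I → G' = G

/-- The universal Markov basis: the union of all minimal generating sets of binomials. -/
def markov {k : Type} [Field k] {σ : Type} (I : Ideal (MvPolynomial σ k)) :
    Set (MvPolynomial σ k) :=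
  {g | ∃ G, IsMinBinGen I G ∧ g ∈ G}

/-- `G` is the reduced Groebner basis of `I` with respect to the monomial order `m`: `G ⊆ I`,
the leading monomial of every nonzero element of `I` is divisible by the leading monomial of some
element of `G`, the elements of `G` are monic, and no monomial of `g ∈ G` is divisible by the
leading monomial of another element of `G`. -/
def IsReducedGB {k : Type} [Field k] {σ : Type} (m : MonomialOrder.{0, 0} σ)
    (I : Ideal (MvPolynomial σ k)) (G : Set (MvPolynomial σ k)) : Prop :=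
  (∀ g ∈ G, g ∈ I) ∧
  (∀ f ∈ I, f ≠ 0 → ∃ g ∈ G, m.degree g ≤ m.degree f) ∧
  (∀ g ∈ G, m.leadingCoeff g = 1) ∧
  (∀ g ∈ G, ∀ g' ∈ G, g' ≠ g → ∀ u ∈ g.support, ¬ m.degree g' ≤ u)

/-- The universal Groebner basis: the union of the reduced Groebner bases. -/
def universalGB {k : Type} [Field k] {σ : Type} (I : Ideal (MvPolynomial σ k)) :
    Set (MvPolynomial σ k) :=
  {g | ∃ (m : MonomialOrder.{0, 0} σ) (G : Set (MvPolynomial σ k)), IsReducedGB m I G ∧ g ∈ G}

/-- `I` is generalized robust: the universal Groebner basis equals the universal Markov basis. -/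
def GenRobust {k : Type} [Field k] {σ : Type} (I : Ideal (MvPolynomial σ k)) : Prop :=
  universalGB I = markov I

end defs

/-! ## Monomial orders -/

section orders

variable {σ : Type}

/-- the equivalence onto the image. -/
noncomputable def mkEquiv {Γ : Type} [AddCommMonoid Γ] (f : (σ →₀ ℕ) →+ Γ)
    (hf : Function.Injective f) : (σ →₀ ℕ) ≃+ AddMonoidHom.mrange f where
  toEquiv := Equiv.ofBijective (fun u => (⟨f u, ⟨u, rfl⟩⟩ : AddMonoidHom.mrange f))
    ⟨fun x y h => hf (congrArg Subtype.val h), by rintro ⟨_, ⟨u, rfl⟩⟩; exact ⟨u, rfl⟩⟩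
  map_add' x y := by
    apply Subtype.ext
    exact map_add f x y

/-- a monomial order from an injective additive map into a well-ordered monoid. -/
noncomputable def mkOrder {Γ : Type} [AddCommMonoid Γ] [LinearOrder Γ] [IsOrderedAddMonoid Γ]
    [WellFoundedLT Γ] (f : (σ →₀ ℕ) →+ Γ) (hf : Function.Injective f) (hm : Monotone f) :
    MonomialOrder.{0, 0} σ where
  syn := AddMonoidHom.mrange f
  toSyn := mkEquiv f hf
  toSyn_monotone := fun x y h => hm h

lemma mkOrder_lt {Γ : Type} [AddCommMonoid Γ] [LinearOrder Γ] [IsOrderedAddMonoid Γ]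
    [WellFoundedLT Γ] (f : (σ →₀ ℕ) →+ Γ) (hf : Function.Injective f) (hm : Monotone f)
    (u v : σ →₀ ℕ) : (mkOrder f hf hm).toSyn u < (mkOrder f hf hm).toSyn v ↔ f u < f v :=
  Iff.rfl

/-- some monomial order. -/
noncomputable def base (σ : Type) [Finite σ] : MonomialOrder.{0, 0} σ := by
  classical
  letI : LinearOrder σ := LinearOrder.lift' (Finite.equivFin σ) (Finite.equivFin σ).injective
  exact MonomialOrder.lex

/-- lexicographic combination. -/
noncomputable def lexHom {A B : Type} [AddCommMonoid A] [AddCommMonoid B]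
    (f : (σ →₀ ℕ) →+ A) (g : (σ →₀ ℕ) →+ B) : (σ →₀ ℕ) →+ Lex (A × B) where
  toFun u := toLex (f u, g u)
  map_zero' := by simp only [map_zero]; rfl
  map_add' u v := by simp only [map_add]; rfl

end orders

/-! ## Toric ideals -/

section core

variable {k : Type} [Field k] {σ : Type} {d : ℕ} (a : σ → (Fin d → ℤ))

/-- the degree of a monomial. -/
noncomputable def dg : (σ →₀ ℕ) →+ (Fin d → ℤ) :=
  Finsupp.liftAddHom (fun i => multiplesHom (Fin d → ℤ) (a i))

lemma dg_single (i : σ) (n : ℕ) : dg a (Finsupp.single i n) = n • a i := by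
  unfold dg
  simp

/-- the monomial map -/
noncomputable def mon (k : Type) [Field k] : MvPolynomial σ k →ₐ[k] AddMonoidAlgebra k (Fin d → ℤ) :=
  aeval (R := k) fun i => (AddMonoidAlgebra.single (a i) 1 : AddMonoidAlgebra k (Fin d → ℤ))

lemma mon_monomial_one (u : σ →₀ ℕ) :
    mon a k (monomial u 1) = AddMonoidAlgebra.single (dg a u) 1 := by
  classical
  induction u using Finsupp.induction_linear with
  | zero =>
    rw [map_zero]
    exact map_one (mon a k)
  | add u v hu hv =>
    have : (monomial (u + v) (1 : k)) = monomial u 1 * monomial v 1 := by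
      rw [monomial_mul, one_mul]
    rw [this, map_mul, hu, hv, AddMonoidAlgebra.single_mul_single, one_mul, map_add]
  | single i n =>
    have : (monomial (Finsupp.single i n) (1 : k)) = X i ^ n := by
      rw [X_pow_eq_monomial]
    rw [this, map_pow, mon, aeval_X, AddMonoidAlgebra.single_pow, one_pow, dg_single]

lemma mem_toric (f : MvPolynomial σ k) : f ∈ toric k a ↔ mon a k f = 0 := by
  unfold toric mon
  rw [RingHom.mem_ker]

lemma binom_mem (u v : σ →₀ ℕ) :
    (monomial u 1 - monomial v 1 : MvPolynomial σ k) ∈ toric k a ↔ dg a u = dg a v := by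
  rw [mem_toric, map_sub, mon_monomial_one, mon_monomial_one, sub_eq_zero]
  constructor
  · intro h
    have h2 : (AddMonoidAlgebra.single (dg a u) (1 : k)).coeff =
        (AddMonoidAlgebra.single (dg a v) (1 : k)).coeff := by rw [h]
    by_contra hne
    have h3 := DFunLike.congr_fun h2 (dg a u)
    simp only [AddMonoidAlgebra.coeff_single, Finsupp.single_eq_same] at h3
    rw [Finsupp.single_eq_of_ne hne] at h3
    exact one_ne_zero h3
  · intro h
    rw [h]

/-- the binomials of the toric ideal. -/
def Bin (k : Type) [Field k] : Set (MvPolynomial σ k) :=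
  {f | ∃ u v, dg a u = dg a v ∧ f = monomial u 1 - monomial v 1}

/-- a section: a monomial of each degree which is attained -/
noncomputable def rep (γ : Fin d → ℤ) : σ →₀ ℕ := by
  classical
  exact if h : ∃ u, dg a u = γ then h.choose else 0

lemma dg_rep (u : σ →₀ ℕ) : dg a (rep a (dg a u)) = dg a u := by
  classical
  have h : ∃ v, dg a v = dg a u := ⟨u, rfl⟩
  unfold rep
  rw [dif_pos h]
  exact h.choose_spec

/-- the linear section. -/
noncomputable def sec (k : Type) [Field k] :
    AddMonoidAlgebra k (Fin d → ℤ) →ₗ[k] MvPolynomial σ k :=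
  (Finsupp.linearCombination k (fun γ => (monomial (rep a γ) (1 : k) : MvPolynomial σ k))) ∘ₗ
    (AddMonoidAlgebra.coeffLinearEquiv k).toLinearMap

lemma sec_single (γ : Fin d → ℤ) :
    sec a k (AddMonoidAlgebra.single γ 1) = monomial (rep a γ) 1 := by
  unfold sec
  simp only [LinearMap.comp_apply]
  have : (AddMonoidAlgebra.coeffLinearEquiv k).toLinearMap (AddMonoidAlgebra.single γ (1 : k)) =
    Finsupp.single γ 1 := rfl
  rw [this, Finsupp.linearCombination_single, one_smul]

lemma mem_span_bin (f : MvPolynomial σ k) (hf : f ∈ toric k a) :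
    f ∈ Submodule.span k (Bin a k) := by
  have key : ∀ g : MvPolynomial σ k, g - sec a k (mon a k g) ∈ Submodule.span k (Bin a k) := by
    intro g
    induction g using MvPolynomial.induction_on' with
    | monomial u c =>
      have h1 : (monomial u c : MvPolynomial σ k) = c • monomial u 1 := by
        rw [smul_monomial, smul_eq_mul, mul_one]
      rw [h1, map_smul, map_smul, ← smul_sub]
      apply Submodule.smul_mem
      apply Submodule.subset_span
      rw [mon_monomial_one, sec_single]
      exact ⟨u, _, (dg_rep a u).symm, rfl⟩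
    | add g h hg hh =>
      have h1 : (g + h) - sec a k (mon a k (g + h)) =
        (g - sec a k (mon a k g)) + (h - sec a k (mon a k h)) := by
        rw [map_add, map_add]; ring
      rw [h1]
      exact Submodule.add_mem _ hg hh
  have := key f
  rw [(mem_toric a f).mp hf, map_zero, sub_zero] at this
  exact this


/-- the maximal ideal -/
noncomputable def mm (k : Type) [Field k] (σ : Type) : Ideal (MvPolynomial σ k) :=
  Ideal.span (Set.range X)

/-- the product of the maximal ideal and the toric ideal -/
noncomputable def mT (k : Type) [Field k] : Ideal (MvPolynomial σ k) := mm k σ * toric k a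

/-- elementary elements of `mT`. -/
def Bin2 (k : Type) [Field k] : Set (MvPolynomial σ k) :=
  {f | ∃ (i : σ) (u v : σ →₀ ℕ), dg a u = dg a v ∧
    f = monomial (u + Finsupp.single i 1) 1 - monomial (v + Finsupp.single i 1) 1}

lemma X_mul_bin (i : σ) (u v : σ →₀ ℕ) :
    (X i : MvPolynomial σ k) * (monomial u 1 - monomial v 1) =
      monomial (u + Finsupp.single i 1) 1 - monomial (v + Finsupp.single i 1) 1 := by
  rw [mul_sub, X, monomial_mul, monomial_mul, one_mul, add_comm _ u, add_comm _ v]

lemma mem_span_bin2 (f : MvPolynomial σ k) (hf : f ∈ mT a k) :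
    f ∈ Submodule.span k (Bin2 a k) := by
  unfold mT at hf
  refine Submodule.mul_induction_on hf ?_ ?_
  · intro p hp t ht
    unfold mm at hp
    have : ∀ t ∈ toric k a, p * t ∈ Submodule.span k (Bin2 a k) := by
      refine Submodule.span_induction (p := fun x _ => ∀ t ∈ toric k a,
        x * t ∈ Submodule.span k (Bin2 a k)) ?_ ?_ ?_ ?_ hp
      · rintro _ ⟨i, rfl⟩ t ht
        have ht2 := mem_span_bin a t ht
        refine Submodule.span_induction (p := fun x _ => X i * x ∈ Submodule.span k (Bin2 a k))
          ?_ ?_ ?_ ?_ ht2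
        · rintro _ ⟨u, v, huv, rfl⟩
          rw [X_mul_bin]
          exact Submodule.subset_span ⟨i, u, v, huv, rfl⟩
        · rw [mul_zero]; exact Submodule.zero_mem _
        · intro x y _ _ hx hy
          rw [mul_add]; exact Submodule.add_mem _ hx hy
        · intro c x _ hx
          rw [mul_smul_comm]; exact Submodule.smul_mem _ _ hx
      · intro t _
        rw [zero_mul]; exact Submodule.zero_mem _
      · intro x y _ _ hx hy t ht
        rw [add_mul]; exact Submodule.add_mem _ (hx t ht) (hy t ht)
      · intro c x _ hx t ht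
        rw [smul_eq_mul, mul_assoc, mul_left_comm]
        exact hx _ (Ideal.mul_mem_left _ _ ht)
    exact this t ht
  · intro x y hx hy
    exact Submodule.add_mem _ hx hy

/-- the relation on monomials -/
def Rel (k : Type) [Field k] (u v : σ →₀ ℕ) : Prop :=
  (monomial u 1 - monomial v 1 : MvPolynomial σ k) ∈ mT a k

lemma Rel.refl (u : σ →₀ ℕ) : Rel a k u u := by
  unfold Rel
  rw [sub_self]
  exact Ideal.zero_mem _

lemma Rel.symm {u v : σ →₀ ℕ} (h : Rel a k u v) : Rel a k v u := by
  unfold Rel at h ⊢
  rw [← neg_sub]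
  exact Ideal.neg_mem_iff _ |>.mpr h

lemma Rel.trans {u v w : σ →₀ ℕ} (h : Rel a k u v) (h' : Rel a k v w) : Rel a k u w := by
  unfold Rel at h h' ⊢
  have := Ideal.add_mem _ h h'
  rwa [sub_add_sub_cancel] at this

lemma mT_le : mT a k ≤ toric k a := Ideal.mul_le_right

lemma Rel.dg_eq {u v : σ →₀ ℕ} (h : Rel a k u v) : dg a u = dg a v := by
  rw [← binom_mem (k := k)]
  exact mT_le a h

/-- two monomials of the same degree sharing a variable are related. -/
lemma rel_of_share {u v : σ →₀ ℕ} (h : dg a u = dg a v) (i : σ) (hu : u i ≠ 0) (hv : v i ≠ 0) :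
    Rel a k u v := by
  have hu' : u = (u - Finsupp.single i 1) + Finsupp.single i 1 := by
    rw [tsub_add_cancel_of_le]
    rw [Finsupp.single_le_iff]
    omega
  have hv' : v = (v - Finsupp.single i 1) + Finsupp.single i 1 := by
    rw [tsub_add_cancel_of_le]
    rw [Finsupp.single_le_iff]
    omega
  have hd : dg a (u - Finsupp.single i 1) = dg a (v - Finsupp.single i 1) := by
    rw [hu', hv', map_add, map_add] at h
    exact add_right_cancel h
  unfold Rel
  rw [hu', hv', ← X_mul_bin]
  exact Ideal.mul_mem_mul (Ideal.subset_span ⟨i, rfl⟩) ((binom_mem a _ _).mpr hd)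

/-! ### Nakayama -/

open Classical in
/-- homogeneous component -/
noncomputable def comp (k : Type) [Field k] (γ : Fin d → ℤ) :
    MvPolynomial σ k →ₗ[k] MvPolynomial σ k :=
  (basisMonomials σ k).constr k
    (fun u => if dg a u = γ then (monomial u (1 : k) : MvPolynomial σ k) else 0)

open Classical in
lemma comp_monomial (γ : Fin d → ℤ) (u : σ →₀ ℕ) :
    comp a k γ (monomial u 1) = if dg a u = γ then monomial u 1 else 0 := by
  unfold comp
  have := (basisMonomials σ k).constr_basis k
    (fun u => if dg a u = γ then (monomial u (1 : k) : MvPolynomial σ k) else 0) u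
  rw [coe_basisMonomials] at this
  exact this

lemma comp_mul (γ : Fin d → ℤ) (s : σ →₀ ℕ) (f : MvPolynomial σ k) :
    comp a k γ (monomial s 1 * f) = monomial s 1 * comp a k (γ - dg a s) f := by
  classical
  induction f using MvPolynomial.induction_on' with
  | monomial u c =>
    have h1 : (monomial u c : MvPolynomial σ k) = c • monomial u 1 := by
      rw [smul_monomial, smul_eq_mul, mul_one]
    rw [h1, mul_smul_comm, map_smul, map_smul, mul_smul_comm]
    congr 1
    rw [monomial_mul, one_mul, comp_monomial, comp_monomial, map_add]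
    by_cases h : dg a u = γ - dg a s
    · rw [if_pos h, if_pos (by rw [h]; abel), monomial_mul, one_mul]
    · rw [if_neg h, if_neg (fun h' => h (by rw [← h']; abel)), mul_zero]
  | add g h hg hh =>
    rw [mul_add, map_add, hg, hh, map_add, mul_add]

lemma comp_bin (γ : Fin d → ℤ) (u v : σ →₀ ℕ) (h : dg a u = dg a v) :
    comp a k γ (monomial u 1 - monomial v 1) = monomial u 1 - monomial v 1 ∨
    comp a k γ (monomial u 1 - monomial v 1) = (0 : MvPolynomial σ k) := by
  classical
  rw [map_sub, comp_monomial, comp_monomial, ← h]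
  by_cases hg : dg a u = γ
  · left; rw [if_pos hg, if_pos hg]
  · right; rw [if_neg hg, if_neg hg, sub_zero]

lemma comp_mem_span {G : Set (MvPolynomial σ k)} (hG : G ⊆ Bin a k) (f : MvPolynomial σ k)
    (hf : f ∈ Ideal.span G) : ∀ γ, comp a k γ f ∈ Ideal.span G := by
  refine Submodule.span_induction (p := fun x _ => ∀ γ, comp a k γ x ∈ Ideal.span G)
    ?_ ?_ ?_ ?_ hf
  · intro x hx γ
    obtain ⟨u, v, huv, rfl⟩ := hG hx
    rcases comp_bin (k := k) a γ u v huv with h | h
    · rw [h]; exact Ideal.subset_span hx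
    · rw [h]; exact Ideal.zero_mem _
  · intro γ; rw [map_zero]; exact Ideal.zero_mem _
  · intro x y _ _ hx hy γ
    rw [map_add]; exact Ideal.add_mem _ (hx γ) (hy γ)
  · intro c x _ hx γ
    rw [smul_eq_mul]
    revert γ
    induction c using MvPolynomial.induction_on' with
    | monomial u c =>
      intro γ
      have h1 : (monomial u c : MvPolynomial σ k) = c • monomial u 1 := by
        rw [smul_monomial, smul_eq_mul, mul_one]
      rw [h1, smul_mul_assoc, map_smul, comp_mul, smul_eq_C_mul]
      exact Ideal.mul_mem_left _ _ (Ideal.mul_mem_left _ _ (hx _))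
    | add g h hg hh =>
      intro γ
      rw [add_mul, map_add]
      exact Ideal.add_mem _ (hg γ) (hh γ)

/-- a positive grading -/
structure Height where
  /-- the height of a monomial -/
  ht : (σ →₀ ℕ) →+ ℕ
  inv : ∀ u v, dg a u = dg a v → ht u = ht v
  pos : ∀ i, 0 < ht (Finsupp.single i 1)

lemma nakayama (H : Height a) {G : Set (MvPolynomial σ k)} (hG : G ⊆ Bin a k)
    (hle : toric k a ≤ Ideal.span G ⊔ mT a k) : Ideal.span G = toric k a := by
  classical
  apply le_antisymm
  · rw [Ideal.span_le]
    intro g hg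
    obtain ⟨u, v, huv, rfl⟩ := hG hg
    exact (binom_mem a u v).mpr huv
  · have key : ∀ N : ℕ, ∀ u v : σ →₀ ℕ, H.ht u = N → dg a u = dg a v →
        (monomial u 1 - monomial v 1 : MvPolynomial σ k) ∈ Ideal.span G := by
      intro N
      induction N using Nat.strong_induction_on with
      | _ N ih =>
        intro u v hN huv
        have h1 : (monomial u 1 - monomial v 1 : MvPolynomial σ k) ∈ Ideal.span G ⊔ mT a k :=
          hle ((binom_mem a u v).mpr huv)
        rw [Submodule.mem_sup] at h1
        obtain ⟨f1, hf1, f2, hf2, hsum⟩ := h1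
        have h2 : comp a k (dg a u) (monomial u 1 - monomial v 1) = 
          (monomial u 1 - monomial v 1 : MvPolynomial σ k) := by
          rw [map_sub, comp_monomial, comp_monomial, if_pos rfl, if_pos huv.symm]
        rw [← h2, ← hsum, map_add]
        apply Ideal.add_mem
        · exact comp_mem_span a hG f1 hf1 _
        · have hf2' := mem_span_bin2 a f2 hf2
          refine Submodule.span_induction
            (p := fun x _ => comp a k (dg a u) x ∈ Ideal.span G) ?_ ?_ ?_ ?_ hf2'
          · rintro _ ⟨i, p, q, hpq, rfl⟩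
            have hpq' : dg a (p + Finsupp.single i 1) = dg a (q + Finsupp.single i 1) := by
              rw [map_add, map_add, hpq]
            rw [map_sub, comp_monomial, comp_monomial, ← hpq']
            by_cases hd : dg a (p + Finsupp.single i 1) = dg a u
            · rw [if_pos hd, if_pos hd, ← X_mul_bin]
              apply Ideal.mul_mem_left
              apply ih (H.ht p) _ p q rfl hpq
              have h3 := H.inv _ _ hd
              have h4 := H.pos i
              rw [map_add] at h3
              omega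
            · rw [if_neg hd, if_neg hd, sub_zero]
              exact Ideal.zero_mem _
          · rw [map_zero]; exact Ideal.zero_mem _
          · intro x y _ _ hx hy
            rw [map_add]; exact Ideal.add_mem _ hx hy
          · intro c x _ hx
            rw [map_smul, smul_eq_C_mul]
            exact Ideal.mul_mem_left _ _ hx
    intro f hf
    have hf' := mem_span_bin a f hf
    refine Submodule.span_induction (p := fun x _ => x ∈ Ideal.span G) ?_ ?_ ?_ ?_ hf'
    · rintro _ ⟨u, v, huv, rfl⟩
      exact key _ u v rfl huv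
    · exact Ideal.zero_mem _
    · intro x y _ _ hx hy
      exact Ideal.add_mem _ hx hy
    · intro c x _ hx
      rw [smul_eq_C_mul]
      exact Ideal.mul_mem_left _ _ hx


/-! ### The universal Markov basis -/

lemma mem_mm_of_coeff (c : MvPolynomial σ k) (hc : coeff 0 c = 0) : c ∈ mm k σ := by
  unfold mm
  rw [← Set.image_univ, mem_ideal_span_X_image]
  intro m hm
  by_contra hcon
  push Not at hcon
  have hm0 : m = 0 := by
    ext i
    exact hcon i (Set.mem_univ i)
  rw [hm0, mem_support_iff] at hm
  exact hm hc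

lemma span_sub_mT {G : Set (MvPolynomial σ k)} (hG : G ⊆ Bin a k) (f : MvPolynomial σ k)
    (hf : f ∈ Ideal.span G) :
    ∃ g ∈ Submodule.span k G, f - g ∈ mT a k := by
  refine Submodule.span_induction (p := fun x _ => ∃ g ∈ Submodule.span k G, x - g ∈ mT a k)
    ?_ ?_ ?_ ?_ hf
  · intro x hx
    exact ⟨x, Submodule.subset_span hx, by rw [sub_self]; exact Ideal.zero_mem _⟩
  · exact ⟨0, Submodule.zero_mem _, by rw [sub_self]; exact Ideal.zero_mem _⟩
  · rintro x y _ _ ⟨g, hg, hxg⟩ ⟨h, hh, hyh⟩
    refine ⟨g + h, Submodule.add_mem _ hg hh, ?_⟩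
    have : x + y - (g + h) = (x - g) + (y - h) := by ring
    rw [this]
    exact Ideal.add_mem _ hxg hyh
  · rintro c x hx ⟨g, hg, hxg⟩
    have hgT : g ∈ toric k a := by
      refine Submodule.span_induction (p := fun x _ => x ∈ toric k a) ?_ ?_ ?_ ?_ hg
      · intro y hy
        obtain ⟨u, v, huv, rfl⟩ := hG hy
        exact (binom_mem a u v).mpr huv
      · exact Ideal.zero_mem _
      · intro x y _ _ hx hy
        exact Ideal.add_mem _ hx hy
      · intro c x _ hx
        rw [smul_eq_C_mul]
        exact Ideal.mul_mem_left _ _ hx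
    refine ⟨coeff 0 c • g, Submodule.smul_mem _ _ hg, ?_⟩
    have : c • x - coeff 0 c • g = c * (x - g) + (c - C (coeff 0 c)) * g := by
      rw [smul_eq_mul, smul_eq_C_mul]; ring
    rw [this]
    apply Ideal.add_mem
    · exact Ideal.mul_mem_left _ _ hxg
    · apply Ideal.mul_mem_mul _ hgT
      apply mem_mm_of_coeff
      rw [coeff_sub, coeff_zero_C, sub_self]

lemma markov_iff (H : Height a) (f : MvPolynomial σ k) :
    f ∈ markov (toric k a) ↔ ∃ u v, f = monomial u 1 - monomial v 1 ∧ dg a u = dg a v ∧
      ¬ Rel a k u v := by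
  classical
  constructor
  · rintro ⟨G, ⟨hbin, hspan, hmin⟩, hf⟩
    have hG : G ⊆ Bin a k := by
      intro g hg
      obtain ⟨u, v, rfl⟩ := hbin g hg
      refine ⟨u, v, ?_, rfl⟩
      rw [← binom_mem (k := k), ← hspan]
      exact Ideal.subset_span hg
    obtain ⟨u, v, huv, rfl⟩ := hG hf
    refine ⟨u, v, rfl, huv, ?_⟩
    intro hrel
    unfold Rel at hrel
    have hG' : G \ {(monomial u 1 - monomial v 1 : MvPolynomial σ k)} ⊆ Bin a k :=
      fun x hx => hG hx.1
    have h1 : toric k a ≤ Ideal.span (G \ {(monomial u 1 - monomial v 1 : MvPolynomial σ k)}) ⊔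
        mT a k := by
      rw [← hspan, Ideal.span_le]
      intro g hg
      by_cases h : g = monomial u 1 - monomial v 1
      · rw [h]
        exact Ideal.mem_sup_right hrel
      · exact Ideal.mem_sup_left (Ideal.subset_span ⟨hg, h⟩)
    have h2 := nakayama a H hG' h1
    have h3 := hmin _ Set.sdiff_subset h2
    have h4 : (monomial u 1 - monomial v 1 : MvPolynomial σ k) ∈
        G \ {(monomial u 1 - monomial v 1 : MvPolynomial σ k)} := by rw [h3]; exact hf
    exact h4.2 rfl
  · rintro ⟨u, v, rfl, huv, hrel⟩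
    set g0 : MvPolynomial σ k := monomial u 1 - monomial v 1 with hg0
    let Q : Submodule k (MvPolynomial σ k) := (mT a k).restrictScalars k
    let q : MvPolynomial σ k →ₗ[k] (MvPolynomial σ k ⧸ Q) := Q.mkQ
    have hq : ∀ x, q x = 0 ↔ x ∈ mT a k := by
      intro x
      exact Submodule.Quotient.mk_eq_zero Q
    have hli : LinearIndepOn k q {g0} := by
      rw [linearIndepOn_singleton_iff]
      intro h
      exact hrel ((hq g0).mp h)
    have hst : ({g0} : Set (MvPolynomial σ k)) ⊆ Bin a k := by
      rintro _ rfl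
      exact ⟨u, v, huv, rfl⟩
    obtain ⟨b, hbt, hsb, hsp, hlib⟩ := exists_linearIndepOn_extension hli hst
    refine ⟨b, ⟨?_, ?_, ?_⟩, hsb rfl⟩
    · intro g hg
      obtain ⟨p, r, _, rfl⟩ := hbt hg
      exact ⟨p, r, rfl⟩
    · apply nakayama a H hbt
      intro f hf
      have h1 := mem_span_bin a f hf
      have h2 : q f ∈ Submodule.span k (q '' b) := by
        refine Submodule.span_induction (p := fun x _ => q x ∈ Submodule.span k (q '' b))
          ?_ ?_ ?_ ?_ h1
        · intro x hx
          exact hsp ⟨x, hx, rfl⟩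
        · rw [map_zero]; exact Submodule.zero_mem _
        · intro x y _ _ hx hy
          rw [map_add]; exact Submodule.add_mem _ hx hy
        · intro c x _ hx
          rw [map_smul]; exact Submodule.smul_mem _ _ hx
      rw [← Submodule.map_span] at h2
      obtain ⟨g, hg, hgf⟩ := h2
      have h3 : f - g ∈ mT a k := by
        rw [← hq, map_sub, hgf, sub_self]
      have h4 : g ∈ Ideal.span b := by
        refine Submodule.span_induction (p := fun x _ => x ∈ Ideal.span b) ?_ ?_ ?_ ?_ hg
        · intro x hx; exact Ideal.subset_span hx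
        · exact Ideal.zero_mem _
        · intro x y _ _ hx hy; exact Ideal.add_mem _ hx hy
        · intro c x _ hx
          rw [smul_eq_C_mul]; exact Ideal.mul_mem_left _ _ hx
      have h5 : f = g + (f - g) := by ring
      rw [h5]
      exact Ideal.add_mem _ (Ideal.mem_sup_left h4) (Ideal.mem_sup_right h3)
    · intro G' hG' hspan
      apply Set.Subset.antisymm hG'
      intro x hx
      by_contra hxG
      have hxT : x ∈ Ideal.span G' := by
        rw [hspan]
        obtain ⟨p, r, hpr, rfl⟩ := hbt hx
        exact (binom_mem a p r).mpr hpr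
      obtain ⟨g, hg, hxg⟩ := span_sub_mT a (hG'.trans hbt) x hxT
      have h1 : q x = q g := by
        rw [← sub_eq_zero, ← map_sub, hq]
        exact hxg
      have h2 : q x ∈ Submodule.span k (q '' (b \ {x})) := by
        rw [h1, ← Submodule.map_span]
        refine ⟨g, ?_, rfl⟩
        refine Submodule.span_mono ?_ hg
        intro y hy
        refine ⟨hG' hy, ?_⟩
        rintro rfl
        exact hxG hy
      exact LinearIndepOn.notMem_span hlib hx h2


/-! ### The universal Groebner basis -/

/-- `u` is the least monomial of its degree -/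
def Std (m : MonomialOrder.{0, 0} σ) (u : σ →₀ ℕ) : Prop :=
  ∀ v, dg a v = dg a u → m.toSyn u ≤ m.toSyn v

lemma std_unique (m : MonomialOrder.{0, 0} σ) {u v : σ →₀ ℕ} (hu : Std a m u) (hv : Std a m v)
    (h : dg a u = dg a v) : u = v := by
  apply m.toSyn.injective
  exact le_antisymm (hu v h.symm) (hv u h)

/-- a least element of a nonempty set of monomials -/
lemma exists_least (m : MonomialOrder.{0, 0} σ) (P : (σ →₀ ℕ) → Prop) (h : ∃ u, P u) :
    ∃ u, P u ∧ ∀ v, P v → m.toSyn u ≤ m.toSyn v := by
  obtain ⟨u0, hu0⟩ := h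
  obtain ⟨s, ⟨u, hu, rfl⟩, hs⟩ := WellFounded.has_min (r := (· < · : m.syn → m.syn → Prop))
    wellFounded_lt {s | ∃ u, P u ∧ m.toSyn u = s} ⟨_, u0, hu0, rfl⟩
  exact ⟨u, hu, fun v hv => not_lt.mp (hs _ ⟨v, hv, rfl⟩)⟩

lemma exists_std (m : MonomialOrder.{0, 0} σ) (u : σ →₀ ℕ) :
    ∃ v, dg a v = dg a u ∧ Std a m v := by
  obtain ⟨v, hv, hmin⟩ := exists_least m (fun v => dg a v = dg a u) ⟨u, rfl⟩
  exact ⟨v, hv, fun w hw => hmin w (hw.trans hv)⟩

/-- the elements of the reduced Groebner basis -/
def GBp (m : MonomialOrder.{0, 0} σ) (u v : σ →₀ ℕ) : Prop :=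
  dg a u = dg a v ∧ Std a m v ∧ u ≠ v ∧ ∀ i, u i ≠ 0 → Std a m (u - Finsupp.single i 1)

lemma binom_degree (m : MonomialOrder.{0, 0} σ) {u v : σ →₀ ℕ} (h : m.toSyn v < m.toSyn u) :
    m.degree (monomial u 1 - monomial v 1 : MvPolynomial σ k) = u ∧
    m.leadingCoeff (monomial u 1 - monomial v 1 : MvPolynomial σ k) = 1 := by
  classical
  have h1 : m.degree (monomial u (1 : k)) = u := by
    rw [m.degree_monomial, if_neg one_ne_zero]
  have h2 : m.degree (-(monomial v (1 : k)) : MvPolynomial σ k) = v := by
    rw [← map_neg (monomial v), m.degree_monomial, if_neg (neg_ne_zero.mpr one_ne_zero)]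
  have h3 : m.toSyn (m.degree (-(monomial v (1 : k)) : MvPolynomial σ k)) <
      m.toSyn (m.degree (monomial u (1 : k))) := by
    rw [h1, h2]; exact h
  constructor
  · rw [sub_eq_add_neg, m.degree_add_of_lt h3, h1]
  · rw [sub_eq_add_neg, m.leadingCoeff_add_of_lt h3, m.leadingCoeff_monomial]

/-- the coefficient sums in each degree vanish on the toric ideal -/
lemma toric_other {f : MvPolynomial σ k} (hf : f ∈ toric k a) {u : σ →₀ ℕ}
    (hu : u ∈ f.support) : ∃ v ∈ f.support, v ≠ u ∧ dg a v = dg a u := by
  classical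
  by_contra hcon
  push Not at hcon
  have h1 : comp a k (dg a u) f = monomial u (coeff u f) := by
    have h2 : ∀ g : MvPolynomial σ k, comp a k (dg a u) g =
        ∑ w ∈ g.support, if dg a w = dg a u then monomial w (coeff w g) else 0 := by
      intro g
      conv_lhs => rw [g.as_sum]
      rw [map_sum]
      apply Finset.sum_congr rfl
      intro w _
      have h3 : (monomial w (coeff w g) : MvPolynomial σ k) = coeff w g • monomial w 1 := by
        rw [smul_monomial, smul_eq_mul, mul_one]
      conv_lhs => rw [h3]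
      rw [map_smul, comp_monomial]
      split_ifs
      · rw [← h3]
      · rw [smul_zero]
    rw [h2]
    rw [Finset.sum_eq_single u]
    · rw [if_pos rfl]
    · intro w hw hwu
      rw [if_neg (hcon w hw hwu)]
    · intro h; exact absurd hu h
  have h2 : comp a k (dg a u) f ∈ toric k a := by
    have hf' := mem_span_bin a f hf
    refine Submodule.span_induction (p := fun x _ => comp a k (dg a u) x ∈ toric k a)
      ?_ ?_ ?_ ?_ hf'
    · rintro _ ⟨p, q, hpq, rfl⟩
      rcases comp_bin (k := k) a (dg a u) p q hpq with h | h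
      · rw [h]; exact (binom_mem a p q).mpr hpq
      · rw [h]; exact Ideal.zero_mem _
    · rw [map_zero]; exact Ideal.zero_mem _
    · intro x y _ _ hx hy
      rw [map_add]; exact Ideal.add_mem _ hx hy
    · intro c x _ hx
      rw [map_smul, smul_eq_C_mul]; exact Ideal.mul_mem_left _ _ hx
  rw [h1, mem_toric] at h2
  have h3 : (monomial u (coeff u f) : MvPolynomial σ k) = coeff u f • monomial u 1 := by
    rw [smul_monomial, smul_eq_mul, mul_one]
  rw [h3, map_smul, mon_monomial_one] at h2
  have h4 : (coeff u f • (AddMonoidAlgebra.single (dg a u) (1 : k))).coeff (dg a u) = 0 := by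
    rw [h2]; rfl
  rw [AddMonoidAlgebra.smul_single, smul_eq_mul, mul_one, AddMonoidAlgebra.coeff_single,
    Finsupp.single_eq_same] at h4
  exact (mem_support_iff.mp hu) h4

lemma not_std_of_degree (m : MonomialOrder.{0, 0} σ) {f : MvPolynomial σ k} (hf : f ∈ toric k a)
    (h0 : f ≠ 0) : ¬ Std a m (m.degree f) := by
  intro hstd
  have h1 : m.degree f ∈ f.support := m.degree_mem_support h0
  obtain ⟨v, hv, hne, hd⟩ := toric_other a hf h1
  have h2 := hstd v hd
  have h3 := m.le_degree hv
  exact hne (m.toSyn.injective (le_antisymm h3 h2))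

lemma std_of_le (m : MonomialOrder.{0, 0} σ) {u w : σ →₀ ℕ} (hu : Std a m u) (h : w ≤ u) :
    Std a m w := by
  intro v hv
  have h1 : u = w + (u - w) := (add_tsub_cancel_of_le h).symm
  have h2 := hu (v + (u - w)) (by rw [map_add, hv]; conv_rhs => rw [h1, map_add])
  rw [h1, map_add, add_tsub_cancel_left, map_add] at h2
  exact le_of_add_le_add_right h2

lemma gb_elem (m : MonomialOrder.{0, 0} σ) {G : Set (MvPolynomial σ k)}
    (hG : IsReducedGB m (toric k a) G) {g : MvPolynomial σ k} (hg : g ∈ G) :
    ∃ u v, g = monomial u 1 - monomial v 1 ∧ GBp a m u v := by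
  classical
  obtain ⟨h1, h2, h3, h4⟩ := hG
  have hg0 : g ≠ 0 := by
    rintro rfl
    have := h3 0 hg
    rw [m.leadingCoeff_zero] at this
    exact zero_ne_one this
  have hgT := h1 g hg
  set u := m.degree g with hu
  have hus : u ∈ g.support := m.degree_mem_support hg0
  -- other monomials are standard
  have hstd : ∀ w ∈ g.support, w ≠ u → Std a m w := by
    intro w hw hwu
    by_contra hns
    obtain ⟨v, hvd, hv⟩ := exists_std a m w
    have hlt : m.toSyn v < m.toSyn w := by
      apply lt_of_le_of_ne (hv w hvd.symm)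
      intro heq
      have : v = w := m.toSyn.injective heq
      rw [this] at hv
      exact hns hv
    have hb := binom_degree (k := k) m hlt
    have hbT : (monomial w 1 - monomial v 1 : MvPolynomial σ k) ∈ toric k a :=
      (binom_mem a w v).mpr hvd.symm
    have hb0 : (monomial w 1 - monomial v 1 : MvPolynomial σ k) ≠ 0 := by
      intro h
      have := hb.2
      rw [h, m.leadingCoeff_zero] at this
      exact zero_ne_one this
    obtain ⟨g', hg', hle⟩ := h2 _ hbT hb0
    rw [hb.1] at hle
    by_cases hgg : g' = g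
    · rw [hgg, ← hu] at hle
      have h5 := m.toSyn_monotone hle
      have h6 := m.le_degree hw
      rw [← hu] at h6
      exact hwu (m.toSyn.injective (le_antisymm h6 h5))
    · exact h4 g hg g' hg' hgg w hw hle
  -- proper divisors of the leading monomial are standard
  have hdiv : ∀ i, u i ≠ 0 → Std a m (u - Finsupp.single i 1) := by
    intro i hi
    by_contra hns
    obtain ⟨v, hvd, hv⟩ := exists_std a m (u - Finsupp.single i 1)
    have hlt : m.toSyn v < m.toSyn (u - Finsupp.single i 1) := by
      apply lt_of_le_of_ne (hv _ hvd.symm)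
      intro heq
      have := m.toSyn.injective heq
      rw [this] at hv
      exact hns hv
    have hb := binom_degree (k := k) m hlt
    have hbT := (binom_mem (k := k) a (u - Finsupp.single i 1) v).mpr hvd.symm
    have hb0 : (monomial (u - Finsupp.single i 1) 1 - monomial v 1 : MvPolynomial σ k) ≠ 0 := by
      intro h
      have := hb.2
      rw [h, m.leadingCoeff_zero] at this
      exact zero_ne_one this
    obtain ⟨g', hg', hle⟩ := h2 _ hbT hb0
    rw [hb.1] at hle
    have hle' : m.degree g' ≤ u := hle.trans tsub_le_self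
    by_cases hgg : g' = g
    · rw [hgg, ← hu] at hle
      have := hle i
      rw [Finsupp.tsub_apply, Finsupp.single_eq_same] at this
      omega
    · exact h4 g hg g' hg' hgg u hus hle'
  -- the other monomial
  obtain ⟨v, hvs, hvu, hvd⟩ := toric_other a hgT hus
  have hvstd := hstd v hvs hvu
  have hsupp : ∀ w ∈ g.support, w = u ∨ w = v := by
    intro w hw
    by_contra hcon
    push Not at hcon
    have hwstd := hstd w hw hcon.1
    obtain ⟨w', hw's, hw'w, hw'd⟩ := toric_other a hgT hw
    by_cases hw'u : w' = u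
    · rw [hw'u] at hw'd
      exact hcon.2 (std_unique a m hwstd hvstd (hw'd.symm.trans hvd.symm))
    · exact hw'w (std_unique a m (hstd w' hw's hw'u) hwstd hw'd)
  have hlc : coeff u g = 1 := h3 g hg
  have hexp : g = monomial u 1 + monomial v (coeff v g) := by
    have h5 := g.as_sum
    have h6 : g.support = {u, v} := by
      ext w
      rw [Finset.mem_insert, Finset.mem_singleton]
      constructor
      · exact hsupp w
      · rintro (rfl | rfl)
        · exact hus
        · exact hvs
    rw [h6, Finset.sum_pair (Ne.symm hvu), hlc] at h5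
    exact h5
  have hcv : coeff v g = -1 := by
    have h5 := (mem_toric a g).mp hgT
    have h7 : (monomial v (coeff v g) : MvPolynomial σ k) = coeff v g • monomial v 1 := by
      rw [smul_monomial, smul_eq_mul, mul_one]
    rw [hexp, map_add] at h5
    rw [h7, map_smul, mon_monomial_one, mon_monomial_one, hvd] at h5
    have h8 : (AddMonoidAlgebra.single (dg a u) (1 : k) + coeff v g •
      AddMonoidAlgebra.single (dg a u) (1 : k)).coeff (dg a u) = 0 := by
      rw [h5]; rfl
    rw [AddMonoidAlgebra.smul_single, smul_eq_mul, mul_one, AddMonoidAlgebra.coeff_add,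
      Finsupp.add_apply, AddMonoidAlgebra.coeff_single, AddMonoidAlgebra.coeff_single,
      Finsupp.single_eq_same, Finsupp.single_eq_same] at h8
    exact (neg_eq_of_add_eq_zero_right h8).symm
  refine ⟨u, v, ?_, hvd.symm, hvstd, Ne.symm hvu, hdiv⟩
  rw [hexp, hcv]
  rw [show (monomial v (-1 : k) : MvPolynomial σ k) = -monomial v 1 from map_neg _ _]
  rw [sub_eq_add_neg]

lemma exists_min_nonstd (m : MonomialOrder.{0, 0} σ) (w : σ →₀ ℕ) (hw : ¬ Std a m w) :
    ∃ u ≤ w, ¬ Std a m u ∧ ∀ i, u i ≠ 0 → Std a m (u - Finsupp.single i 1) := by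
  obtain ⟨u, ⟨huw, hu⟩, hmin⟩ := exists_least m (fun u => u ≤ w ∧ ¬ Std a m u) ⟨w, le_refl _, hw⟩
  refine ⟨u, huw, hu, fun i hi => ?_⟩
  by_contra hcon
  have h1 := hmin _ ⟨tsub_le_self.trans huw, hcon⟩
  have h2 : m.toSyn (u - Finsupp.single i 1) < m.toSyn u := by
    apply m.toSyn_strictMono
    refine lt_of_le_of_ne tsub_le_self ?_
    intro h
    have := DFunLike.congr_fun h i
    rw [Finsupp.tsub_apply, Finsupp.single_eq_same] at this
    omega
  exact absurd h1 (not_le.mpr h2)

lemma gb_set (m : MonomialOrder.{0, 0} σ) :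
    IsReducedGB m (toric k a) {g | ∃ u v, g = monomial u 1 - monomial v 1 ∧ GBp a m u v} := by
  classical
  have hlt : ∀ u v, GBp a m u v → m.toSyn v < m.toSyn u := by
    rintro u v ⟨hd, hv, hne, -⟩
    exact lt_of_le_of_ne (hv u hd) (fun h => hne (m.toSyn.injective h).symm)
  refine ⟨?_, ?_, ?_, ?_⟩
  · rintro _ ⟨u, v, rfl, h⟩
    exact (binom_mem a u v).mpr h.1
  · intro f hf h0
    obtain ⟨u, hu, hns, hdiv⟩ := exists_min_nonstd a m _ (not_std_of_degree a m hf h0)
    obtain ⟨v, hvd, hv⟩ := exists_std a m u
    have hne : u ≠ v := by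
      rintro rfl
      exact hns hv
    have hgb : GBp a m u v := ⟨hvd.symm, hv, hne, hdiv⟩
    refine ⟨_, ⟨u, v, rfl, hgb⟩, ?_⟩
    rw [(binom_degree (k := k) m (hlt u v hgb)).1]
    exact hu
  · rintro _ ⟨u, v, rfl, h⟩
    exact (binom_degree (k := k) m (hlt u v h)).2
  · rintro _ ⟨u, v, rfl, h⟩ _ ⟨u', v', rfl, h'⟩ hne w hw hle
    rw [(binom_degree (k := k) m (hlt u' v' h')).1] at hle
    have hu'ns : ¬ Std a m u' := by
      intro hs
      exact h'.2.2.1 (std_unique a m hs h'.2.1 h'.1)
    have hw' : w = u ∨ w = v := by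
      by_contra hcon
      push Not at hcon
      rw [mem_support_iff, coeff_sub, coeff_monomial, coeff_monomial,
        if_neg (Ne.symm hcon.1), if_neg (Ne.symm hcon.2), sub_zero] at hw
      exact hw rfl
    rcases hw' with rfl | rfl
    · by_cases huu : u' = w
      · subst huu
        have hv' : v' = v := std_unique a m h'.2.1 h.2.1 (h'.1.symm.trans h.1)
        rw [hv'] at hne
        exact hne rfl
      · have : ∃ i, u' i < w i := by
          by_contra hcon
          push Not at hcon
          exact huu (le_antisymm hle hcon)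
        obtain ⟨i, hi⟩ := this
        have h5 := h.2.2.2 i (by omega)
        apply hu'ns
        apply std_of_le a m h5
        intro j
        rw [Finsupp.tsub_apply, Finsupp.single_apply]
        have := hle j
        split_ifs with hij
        · subst hij
          omega
        · omega
    · exact hu'ns (std_of_le a m h.2.1 hle)

lemma ugb_iff (f : MvPolynomial σ k) : f ∈ universalGB (toric k a) ↔
    ∃ (m : MonomialOrder.{0, 0} σ) (u v : σ →₀ ℕ), f = monomial u 1 - monomial v 1 ∧
      GBp a m u v := by
  constructor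
  · rintro ⟨m, G, hG, hf⟩
    obtain ⟨u, v, h1, h2⟩ := gb_elem a m hG hf
    exact ⟨m, u, v, h1, h2⟩
  · rintro ⟨m, u, v, h1, h2⟩
    exact ⟨m, _, gb_set a m, u, v, h1, h2⟩

end core

/-! ## Elimination -/

section elim

variable {k : Type} [Field k] {σ σ' : Type} {d : ℕ} (a : σ → (Fin d → ℤ))
  (ι : σ' → σ) (hι : Function.Injective ι)

/-- the inclusion of exponent vectors -/
noncomputable def em (u : σ' →₀ ℕ) : σ →₀ ℕ := Finsupp.mapDomain ι u

include hι in
lemma em_inj : Function.Injective (em ι) := Finsupp.mapDomain_injective hι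

lemma dg_em (u : σ' →₀ ℕ) : dg a (em ι u) = dg (a ∘ ι) u := by
  classical
  unfold em
  induction u using Finsupp.induction_linear with
  | zero => rw [Finsupp.mapDomain_zero, map_zero, map_zero]
  | add u v hu hv => rw [Finsupp.mapDomain_add, map_add, map_add, hu, hv]
  | single i n => rw [Finsupp.mapDomain_single, dg_single, dg_single]; rfl

include hι in
lemma em_apply (u : σ' →₀ ℕ) (i : σ') : em ι u (ι i) = u i :=
  Finsupp.mapDomain_apply hι u i

lemma em_notin (u : σ' →₀ ℕ) (j : σ) (hj : j ∉ Set.range ι) : em ι u j = 0 :=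
  Finsupp.mapDomain_of_notMem_range u j hj

include hι in
lemma em_sub (u : σ' →₀ ℕ) (i : σ') :
    em ι u - Finsupp.single (ι i) 1 = em ι (u - Finsupp.single i 1) := by
  classical
  ext j
  by_cases hj : j ∈ Set.range ι
  · obtain ⟨l, rfl⟩ := hj
    rw [Finsupp.tsub_apply, em_apply ι hι, em_apply ι hι, Finsupp.tsub_apply,
      Finsupp.single_apply, Finsupp.single_apply]
    by_cases h : i = l
    · rw [if_pos h, if_pos (by rw [h])]
    · rw [if_neg h, if_neg (fun h' => h (hι h'))]
  · rw [Finsupp.tsub_apply, em_notin ι _ j hj, em_notin ι _ j hj]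
    omega

/-- the inclusion as an additive map -/
noncomputable def emHom : (σ' →₀ ℕ) →+ (σ →₀ ℕ) where
  toFun := em ι
  map_zero' := Finsupp.mapDomain_zero
  map_add' _ _ := Finsupp.mapDomain_add

/-- restriction of a monomial order -/
noncomputable def resOrder (m : MonomialOrder.{0, 0} σ) : MonomialOrder.{0, 0} σ' :=
  mkOrder ((m.toSyn : (σ →₀ ℕ) →+ m.syn).comp (emHom ι))
    (by
      intro u v h
      exact em_inj ι hι (m.toSyn.injective h))
    (by
      intro u v h
      exact m.toSyn_monotone (Finsupp.mapDomain_mono h))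

lemma resOrder_le (m : MonomialOrder.{0, 0} σ) (u v : σ' →₀ ℕ) :
    (resOrder ι hι m).toSyn u ≤ (resOrder ι hι m).toSyn v ↔
      m.toSyn (em ι u) ≤ m.toSyn (em ι v) := Iff.rfl

lemma gbp_res (m : MonomialOrder.{0, 0} σ) (u v : σ' →₀ ℕ) (h : GBp a m (em ι u) (em ι v)) :
    GBp (a ∘ ι) (resOrder ι hι m) u v := by
  have hstd : ∀ w, Std a m (em ι w) → Std (a ∘ ι) (resOrder ι hι m) w := by
    intro w hw v hv
    rw [resOrder_le]
    apply hw
    rw [dg_em, dg_em, hv]
  obtain ⟨h1, h2, h3, h4⟩ := h
  refine ⟨?_, hstd v h2, ?_, ?_⟩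
  · rw [dg_em, dg_em] at h1; exact h1
  · rintro rfl; exact h3 rfl
  · intro i hi
    apply hstd
    rw [← em_sub ι hι]
    apply h4
    rw [em_apply ι hι]
    exact hi


open Classical in
/-- the part of an exponent vector outside the image -/
noncomputable def outHom : (σ →₀ ℕ) →+ (σ →₀ ℕ) :=
  Finsupp.filterAddHom (fun j => j ∉ Set.range ι)

/-- the part inside the image -/
noncomputable def inHom : (σ →₀ ℕ) →+ (σ' →₀ ℕ) := Finsupp.comapDomain.addMonoidHom hι

lemma inHom_apply (u : σ →₀ ℕ) (i : σ') : inHom ι hι u i = u (ι i) := rfl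

lemma outHom_in (u : σ →₀ ℕ) (j : σ) (hj : j ∈ Set.range ι) : outHom ι u j = 0 := by
  classical
  exact Finsupp.filter_apply_neg _ _ (by simpa using hj)

lemma outHom_out (u : σ →₀ ℕ) (j : σ) (hj : j ∉ Set.range ι) : outHom ι u j = u j := by
  classical
  exact Finsupp.filter_apply_pos _ _ hj

/-- extension of a monomial order to an elimination order -/
noncomputable def extOrder [Finite σ] (m' : MonomialOrder.{0, 0} σ') : MonomialOrder.{0, 0} σ :=
  mkOrder (lexHom (((base σ).toSyn : (σ →₀ ℕ) →+ (base σ).syn).comp (outHom ι))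
    ((m'.toSyn : (σ' →₀ ℕ) →+ m'.syn).comp (inHom ι hι)))
    (by
      intro u v h
      have h1 : (base σ).toSyn (outHom ι u) = (base σ).toSyn (outHom ι v) :=
        congrArg (fun x => (ofLex x).1) h
      have h2 : m'.toSyn (inHom ι hι u) = m'.toSyn (inHom ι hι v) :=
        congrArg (fun x => (ofLex x).2) h
      have h1' := (base σ).toSyn.injective h1
      have h2' := m'.toSyn.injective h2
      ext j
      by_cases hj : j ∈ Set.range ι
      · obtain ⟨i, rfl⟩ := hj
        exact DFunLike.congr_fun h2' i
      · rw [← outHom_out ι u j hj, ← outHom_out ι v j hj, h1'])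
    (by
      intro u v h
      have h1 : outHom ι u ≤ outHom ι v := by
        intro j
        by_cases hj : j ∈ Set.range ι
        · rw [outHom_in ι u j hj, outHom_in ι v j hj]
        · rw [outHom_out ι u j hj, outHom_out ι v j hj]
          exact h j
      have h2 : inHom ι hι u ≤ inHom ι hι v := fun i => h (ι i)
      apply Prod.Lex.toLex_mono
      exact ⟨(base σ).toSyn_monotone h1, m'.toSyn_monotone h2⟩)

lemma extOrder_le [Finite σ] (m' : MonomialOrder.{0, 0} σ') (u v : σ →₀ ℕ) :
    (extOrder ι hι m').toSyn u ≤ (extOrder ι hι m').toSyn v ↔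
      ((base σ).toSyn (outHom ι u) < (base σ).toSyn (outHom ι v) ∨
        ((base σ).toSyn (outHom ι u) = (base σ).toSyn (outHom ι v) ∧
          m'.toSyn (inHom ι hι u) ≤ m'.toSyn (inHom ι hι v))) :=
  Prod.Lex.toLex_le_toLex

lemma outHom_em (u : σ' →₀ ℕ) : outHom ι (em ι u) = 0 := by
  ext j
  by_cases hj : j ∈ Set.range ι
  · rw [outHom_in ι _ j hj]; rfl
  · rw [outHom_out ι _ j hj, em_notin ι u j hj]; rfl

lemma inHom_em (u : σ' →₀ ℕ) : inHom ι hι (em ι u) = u := by
  ext i
  rw [inHom_apply, em_apply ι hι]

lemma em_in_of_out (u : σ →₀ ℕ) (h : outHom ι u = 0) : em ι (inHom ι hι u) = u := by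
  ext j
  by_cases hj : j ∈ Set.range ι
  · obtain ⟨i, rfl⟩ := hj
    rw [em_apply ι hι, inHom_apply]
  · rw [em_notin ι _ j hj, ← outHom_out ι u j hj, h]; rfl

lemma gbp_ext [Finite σ] (m' : MonomialOrder.{0, 0} σ') (u v : σ' →₀ ℕ)
    (h : GBp (a ∘ ι) m' u v) : GBp a (extOrder ι hι m') (em ι u) (em ι v) := by
  have hstd : ∀ w, Std (a ∘ ι) m' w → Std a (extOrder ι hι m') (em ι w) := by
    intro w hw v hv
    rw [extOrder_le]
    by_cases ho : outHom ι v = 0
    · right
      rw [outHom_em, ho]
      refine ⟨rfl, ?_⟩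
      rw [inHom_em]
      apply hw
      rw [← dg_em, ← dg_em, em_in_of_out ι hι v ho, hv]
    · left
      rw [outHom_em, map_zero]
      rw [MonomialOrder.toSyn_lt_iff_ne_zero]
      intro h0
      exact ho (((base σ).toSyn_eq_zero_iff _).mp h0)
  obtain ⟨h1, h2, h3, h4⟩ := h
  refine ⟨?_, hstd v h2, ?_, ?_⟩
  · rw [dg_em, dg_em]; exact h1
  · intro h; exact h3 (em_inj ι hι h)
  · intro j hj
    have hjr : j ∈ Set.range ι := by
      by_contra hjr
      exact hj (em_notin ι u j hjr)
    obtain ⟨i, rfl⟩ := hjr
    rw [em_sub ι hι]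
    apply hstd
    apply h4
    rw [em_apply ι hι] at hj
    exact hj

/-- the relation is preserved under the inclusion -/
lemma rel_em {u v : σ' →₀ ℕ} (h : Rel (a ∘ ι) k u v) : Rel a k (em ι u) (em ι v) := by
  unfold Rel at h ⊢
  have h1 : (monomial (em ι u) 1 - monomial (em ι v) 1 : MvPolynomial σ k) =
      rename ι (monomial u 1 - monomial v 1) := by
    rw [map_sub, rename_monomial, rename_monomial]
    rfl
  rw [h1]
  have h2 := mem_span_bin2 (a ∘ ι) _ h
  refine Submodule.span_induction (p := fun x _ => rename ι x ∈ mT a k) ?_ ?_ ?_ ?_ h2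
  · rintro _ ⟨i, p, q, hpq, rfl⟩
    rw [← X_mul_bin, map_mul, rename_X, map_sub, rename_monomial, rename_monomial]
    apply Ideal.mul_mem_mul (show (X (ι i) : MvPolynomial σ k) ∈ mm k σ from
      Ideal.subset_span ⟨ι i, rfl⟩)
    apply (binom_mem a _ _).mpr
    exact (dg_em a ι p).trans (hpq.trans (dg_em a ι q).symm)
  · rw [map_zero]; exact Ideal.zero_mem _
  · intro x y _ _ hx hy
    rw [map_add]; exact Ideal.add_mem _ hx hy
  · intro c x _ hx
    rw [map_smul, smul_eq_C_mul]; exact Ideal.mul_mem_left _ _ hx

end elim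

/-! ## The special order -/

section special

variable {k : Type} [Field k] {σ : Type} {d : ℕ} (a : σ → (Fin d → ℤ))

/-- refine a weight by a monomial order -/
noncomputable def wtOrder (W : (σ →₀ ℕ) →+ ℕ) (m : MonomialOrder.{0, 0} σ) :
    MonomialOrder.{0, 0} σ :=
  mkOrder (lexHom W (m.toSyn : (σ →₀ ℕ) →+ m.syn))
    (by
      intro u v h
      have h2 : m.toSyn u = m.toSyn v := congrArg (fun x => (ofLex x).2) h
      exact m.toSyn.injective h2)
    (by
      intro u v h
      apply Prod.Lex.toLex_mono
      constructor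
      · show W u ≤ W v
        rw [← add_tsub_cancel_of_le h, map_add]
        omega
      · exact m.toSyn_monotone h)

lemma wtOrder_le (W : (σ →₀ ℕ) →+ ℕ) (m : MonomialOrder.{0, 0} σ) (u v : σ →₀ ℕ) :
    (wtOrder W m).toSyn u ≤ (wtOrder W m).toSyn v ↔
      (W u < W v ∨ (W u = W v ∧ m.toSyn u ≤ m.toSyn v)) :=
  Prod.Lex.toLex_le_toLex

open Classical in
/-- the number of variables of a monomial outside a set -/
noncomputable def outW (S : Set σ) : (σ →₀ ℕ) →+ ℕ :=
  Finsupp.liftAddHom (fun i => if i ∈ S then (0 : ℕ →+ ℕ) else AddMonoidHom.id ℕ)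

lemma outW_eq_zero (S : Set σ) (u : σ →₀ ℕ) : outW S u = 0 ↔ ∀ i, u i ≠ 0 → i ∈ S := by
  classical
  unfold outW
  rw [Finsupp.liftAddHom_apply, Finsupp.sum, Finset.sum_eq_zero_iff]
  constructor
  · intro h i hi
    by_contra hS
    have := h i (Finsupp.mem_support_iff.mpr hi)
    rw [if_neg hS] at this
    exact hi this
  · intro h i hi
    rw [if_pos (h i (Finsupp.mem_support_iff.mp hi))]
    rfl

lemma special [Finite σ] (H : Height a) {u v : σ →₀ ℕ} (hd : dg a u = dg a v)
    (hr : ¬ Rel a k u v) :
    ∃ (m : MonomialOrder.{0, 0} σ) (p q : σ →₀ ℕ), GBp a m p q ∧ Rel a k p u ∧ Rel a k q v := by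
  classical
  let S : Set σ := {i | ∃ q, Rel a k q v ∧ q i ≠ 0}
  let m := wtOrder (outW S) (base σ)
  obtain ⟨q, hqd, hq⟩ := exists_std a m v
  have hWv : outW S v = 0 := by
    rw [outW_eq_zero]
    intro i hi
    exact ⟨v, Rel.refl a v, hi⟩
  have hWq : outW S q = 0 := by
    have h1 := hq v hqd.symm
    rw [wtOrder_le, hWv] at h1
    omega
  have hqv : Rel a k q v := by
    by_cases hq0 : q = 0
    · -- then the height of v is zero, so v = 0
      have h1 : H.ht v = 0 := by
        rw [← H.inv _ _ hqd, hq0, map_zero]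
      have h2 : v = 0 := by
        ext i
        by_contra hi
        have hv' : v = (v - Finsupp.single i 1) + Finsupp.single i 1 := by
          rw [tsub_add_cancel_of_le]
          rw [Finsupp.single_le_iff]
          exact Nat.one_le_iff_ne_zero.mpr hi
        rw [hv', map_add] at h1
        have := H.pos i
        omega
      rw [hq0, h2]
      exact Rel.refl a 0
    · obtain ⟨i, hi⟩ := Finsupp.ne_iff.mp hq0
      have hiS : i ∈ S := (outW_eq_zero S q).mp hWq i hi
      obtain ⟨q', hq', hq'i⟩ := hiS
      have hdd : dg a q = dg a q' := hqd.trans (hq'.dg_eq a).symm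
      exact (rel_of_share a hdd i hi hq'i).trans a hq'
  obtain ⟨p, hpu, hp⟩ := exists_least m (fun w => Rel a k w u) ⟨u, Rel.refl a u⟩
  refine ⟨m, p, q, ⟨?_, hq, ?_, ?_⟩, hpu, hqv⟩
  · exact (hpu.dg_eq a).trans (hd.trans hqd.symm)
  · rintro rfl
    exact hr ((hpu.symm a).trans a hqv)
  · intro i hi w hw
    by_contra hlt
    rw [not_le] at hlt
    have hp' : p = (p - Finsupp.single i 1) + Finsupp.single i 1 := by
      rw [tsub_add_cancel_of_le]
      rw [Finsupp.single_le_iff]
      omega
    have h1 : m.toSyn (w + Finsupp.single i 1) < m.toSyn p := by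
      rw [hp', map_add, map_add]
      exact add_lt_add_left hlt _
    have h2 : dg a (w + Finsupp.single i 1) = dg a p := by
      conv_rhs => rw [hp']
      rw [map_add, map_add, hw]
    have h3 : Rel a k (w + Finsupp.single i 1) p := by
      apply rel_of_share a h2 i _ hi
      rw [Finsupp.add_apply, Finsupp.single_eq_same]
      omega
    exact absurd (hp _ (h3.trans a hpu)) (not_le.mpr h1)

end special

/-! ## The theorem for families -/

section main

variable {k : Type} [Field k] {σ σ' : Type} {d : ℕ} (a : σ → (Fin d → ℤ))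
  (ι : σ' → σ) (hι : Function.Injective ι)

/-- restriction of a height -/
noncomputable def Height.res (H : Height a) : Height (a ∘ ι) where
  ht := H.ht.comp (emHom ι)
  inv u v h := by
    apply H.inv
    show dg a (em ι u) = dg a (em ι v)
    rw [dg_em, dg_em, h]
  pos i := by
    have : emHom ι (Finsupp.single i 1) = Finsupp.single (ι i) 1 := Finsupp.mapDomain_single
    show 0 < H.ht (emHom ι (Finsupp.single i 1))
    rw [this]
    exact H.pos (ι i)

lemma supp_sub {u v s : σ →₀ ℕ} (h : s ∈ (monomial u 1 - monomial v 1 : MvPolynomial σ k).support) :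
    s = u ∨ s = v := by
  classical
  by_contra hcon
  push Not at hcon
  rw [mem_support_iff, coeff_sub, coeff_monomial, coeff_monomial,
    if_neg (Ne.symm hcon.1), if_neg (Ne.symm hcon.2), sub_zero] at h
  exact h rfl

lemma mem_supp_sub {u v : σ →₀ ℕ} (huv : u ≠ v) :
    u ∈ (monomial u 1 - monomial v 1 : MvPolynomial σ k).support ∧
    v ∈ (monomial u 1 - monomial v 1 : MvPolynomial σ k).support := by
  classical
  rw [mem_support_iff, mem_support_iff, coeff_sub, coeff_sub, coeff_monomial, coeff_monomial,
    coeff_monomial, coeff_monomial, if_pos rfl, if_pos rfl, if_neg (Ne.symm huv), if_neg huv]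
  constructor
  · rw [sub_zero]; exact one_ne_zero
  · rw [zero_sub]; exact neg_ne_zero.mpr one_ne_zero

lemma rename_binom (u v : σ' →₀ ℕ) :
    rename ι (monomial u 1 - monomial v 1 : MvPolynomial σ' k) =
      monomial (em ι u) 1 - monomial (em ι v) 1 := by
  rw [map_sub, rename_monomial, rename_monomial]
  rfl

include hι in
theorem family [Finite σ] (H : Height a) (hrob : GenRobust (toric k a)) :
    GenRobust (toric k (a ∘ ι)) := by
  have H' : Height (a ∘ ι) := H.res a ι
  have : Finite σ' := Finite.of_injective ι hι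
  unfold GenRobust at hrob ⊢
  ext f
  constructor
  · intro hf
    obtain ⟨m', u, v, rfl, hgb⟩ := (ugb_iff (a ∘ ι) f).mp hf
    have h1 := gbp_ext a ι hι m' u v hgb
    have h2 : (monomial (em ι u) 1 - monomial (em ι v) 1 : MvPolynomial σ k) ∈
        universalGB (toric k a) := (ugb_iff a _).mpr ⟨_, _, _, rfl, h1⟩
    rw [hrob] at h2
    obtain ⟨p, q, hpq, hd, hr⟩ := (markov_iff a H _).mp h2
    have hr2 : ¬ Rel a k (em ι u) (em ι v) := by
      unfold Rel at hr ⊢
      rw [hpq]; exact hr
    exact (markov_iff (a ∘ ι) H' _).mpr ⟨u, v, rfl, hgb.1, fun h => hr2 (rel_em a ι h)⟩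
  · intro hf
    obtain ⟨u, v, rfl, hd, hr⟩ := (markov_iff (a ∘ ι) H' f).mp hf
    obtain ⟨m0, p, q, hgb, hpu, hqv⟩ := special (a ∘ ι) H' hd hr
    have h1 := gbp_ext a ι hι m0 p q hgb
    have h2 : (monomial (em ι p) 1 - monomial (em ι q) 1 : MvPolynomial σ k) ∈
        universalGB (toric k a) := (ugb_iff a _).mpr ⟨_, _, _, rfl, h1⟩
    rw [hrob] at h2
    obtain ⟨s, t, hst, hd', hr'⟩ := (markov_iff a H _).mp h2
    have hr1 : ¬ Rel a k (em ι p) (em ι q) := by
      unfold Rel at hr' ⊢
      rw [hst]; exact hr'
    have hr2 : ¬ Rel a k (em ι u) (em ι v) := by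
      intro h
      apply hr1
      exact ((rel_em a ι hpu).trans a h).trans a ((rel_em a ι hqv).symm a)
    have h3 : (monomial (em ι u) 1 - monomial (em ι v) 1 : MvPolynomial σ k) ∈
        markov (toric k a) := (markov_iff a H _).mpr ⟨_, _, rfl, by rw [dg_em, dg_em, hd], hr2⟩
    rw [← hrob] at h3
    obtain ⟨m, s, t, hst, hgb'⟩ := (ugb_iff a _).mp h3
    have hmem := mem_supp_sub (k := k) hgb'.2.2.1
    rw [← hst] at hmem
    have hs : ∃ s', em ι s' = s := by
      rcases supp_sub hmem.1 with h | h
      · exact ⟨u, h.symm⟩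
      · exact ⟨v, h.symm⟩
    have ht : ∃ t', em ι t' = t := by
      rcases supp_sub hmem.2 with h | h
      · exact ⟨u, h.symm⟩
      · exact ⟨v, h.symm⟩
    obtain ⟨s', rfl⟩ := hs
    obtain ⟨t', rfl⟩ := ht
    rw [← rename_binom, ← rename_binom] at hst
    have hst' := rename_injective ι hι hst
    rw [hst']
    exact (ugb_iff (a ∘ ι) _).mpr ⟨_, s', t', rfl, gbp_res a ι hι m s' t' hgb'⟩

end main

/-! ## The statement for finite sets of vectors -/

/-- The toric ideal `I_A` of a finite set `A ⊆ ℤ^d`, in the polynomial ring on the elements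
of `A`. -/
noncomputable def toricIdeal (k : Type) [Field k] {d : ℕ} (A : Finset (Fin d → ℤ)) :
    Ideal (MvPolynomial A k) :=
  toric k (fun v : A => (v : Fin d → ℤ))

/-- **Main theorem.** Let `A ⊆ ℤ^d` be a finite set of vectors on which some rational linear
functional is positive. If the toric ideal `I_A` is generalized robust, then so is `I_{A'}` for
every subset `A' ⊆ A`. -/
theorem result (k : Type) [Field k] (d : ℕ) (A A' : Finset (Fin d → ℤ)) (w : Fin d → ℚ)
    (hw : ∀ v ∈ A, 0 < ∑ i, w i * (v i : ℚ)) (hA' : A' ⊆ A)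
    (h : GenRobust (toricIdeal k A)) : GenRobust (toricIdeal k A') := by
  classical
  -- an integral height function
  obtain ⟨N, hN, hNw⟩ : ∃ N : ℕ, 0 < N ∧ ∀ i, ∃ z : ℤ, (N : ℚ) * w i = z := by
    refine ⟨∏ i, (w i).den, Finset.prod_pos (fun i _ => (w i).den_pos), fun i => ?_⟩
    refine ⟨(∏ j ∈ Finset.univ.erase i, ((w j).den : ℤ)) * (w i).num, ?_⟩
    rw [← Finset.mul_prod_erase Finset.univ _ (Finset.mem_univ i)]
    push_cast
    have : ((w i).den : ℚ) * w i = (w i).num := Rat.den_mul_eq_num (w i)
    calc ((w i).den : ℚ) * (∏ j ∈ Finset.univ.erase i, ((w j).den : ℚ)) * w i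
        = (∏ j ∈ Finset.univ.erase i, ((w j).den : ℚ)) * (((w i).den : ℚ) * w i) := by ring
      _ = _ := by rw [this]
  choose z hz using hNw
  have hpos : ∀ v : A, 0 < ∑ i, z i * (v : Fin d → ℤ) i := by
    intro v
    have h1 := hw v.1 v.2
    have h2 : ((∑ i, z i * (v : Fin d → ℤ) i : ℤ) : ℚ) = N * ∑ i, w i * ((v : Fin d → ℤ) i : ℚ) := by
      push_cast
      rw [Finset.mul_sum]
      apply Finset.sum_congr rfl
      intro i _
      rw [← hz i]; ring
    have h3 : (0 : ℚ) < ((∑ i, z i * (v : Fin d → ℤ) i : ℤ) : ℚ) := by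
      rw [h2]
      exact mul_pos (by exact_mod_cast hN) h1
    exact_mod_cast h3
  let a : A → (Fin d → ℤ) := fun v => v
  let L : (Fin d → ℤ) →+ ℤ :=
    { toFun := fun v => ∑ i, z i * v i
      map_zero' := by simp
      map_add' := by
        intro x y
        rw [← Finset.sum_add_distrib]
        apply Finset.sum_congr rfl
        intro i _
        rw [Pi.add_apply]; ring }
  let ht : (A →₀ ℕ) →+ ℕ :=
    Finsupp.liftAddHom (fun v => multiplesHom ℕ (L (a v)).toNat)
  have hht : ∀ u : A →₀ ℕ, ((ht u : ℕ) : ℤ) = L (dg a u) := by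
    intro u
    induction u using Finsupp.induction_linear with
    | zero => rw [map_zero, map_zero, map_zero]; rfl
    | add u v hu hv => rw [map_add, map_add, map_add, ← hu, ← hv]; push_cast; rfl
    | single v n =>
      have h1 : ht (Finsupp.single v n) = n * (L (a v)).toNat := by
        show Finsupp.liftAddHom (fun v => multiplesHom ℕ (L (a v)).toNat) (Finsupp.single v n) = _
        rw [Finsupp.liftAddHom_apply_single]
        simp
      rw [h1, dg_single, map_nsmul]
      push_cast
      have h2 : (((L (a v)).toNat : ℕ) : ℤ) = L (a v) := Int.toNat_of_nonneg (le_of_lt (hpos v))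
      rw [h2]
      simp
  let H : Height a :=
    { ht := ht
      inv := by
        intro u v huv
        have := hht u
        rw [huv, ← hht v] at this
        exact_mod_cast this
      pos := by
        intro v
        have h1 := hht (Finsupp.single v 1)
        rw [dg_single, one_smul] at h1
        have h2 := hpos v
        have h3 : (0 : ℤ) < L (a v) := h2
        rw [← h1] at h3
        exact_mod_cast h3 }
  exact family a (fun v : A' => (⟨v.1, hA' v.2⟩ : A))
    (fun x y hxy => Subtype.ext (congrArg (fun t : A => t.1) hxy)) H h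

end Pool.Agent.Results.MP_1df74f_al.GeneralizedRobust
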